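import Mathlib

set_option autoImplicit false

/-!
# The quantitative L-orthogonality inequality for ε-strong Q-measures
-/

namespace Pool.Agent.Results.MP_8a0948_an.FailsForEveryQMeasure

open Filter Topology Set
open scoped ENNReal

/-- A measure `μ : 𝒫(ω) → [0,1]`: finitely additive and vanishing on finite sets. -/
structure IsMeasure (μ : Set ℕ → ℝ) : Prop where
  nonneg : ∀ A, 0 ≤ μ A
  le_one : ∀ A, μ A ≤ 1
  add : ∀ A B, Disjoint A B → μ (A ∪ B) = μ A + μ B
  finite : ∀ A, A.Finite → μ A = 0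

/-- `μ` is an `ε`-strong `Q`-measure: each partition `(P n)` of `ω` into finite sets has a
selector `A` with `μ A ≥ ε`. -/
def StrongQ (ε : ℝ) (μ : Set ℕ → ℝ) : Prop :=
  IsMeasure μ ∧ ∀ P : ℕ → Set ℕ, (∀ n, (P n).Finite) → (∀ m n, m ≠ n → Disjoint (P m) (P n)) →
    (⋃ n, P n) = Set.univ → ∃ A : Set ℕ, (∀ n, (A ∩ P n).Subsingleton) ∧ ε ≤ μ A

/-- An `L`-orthogonal sequence of the closed unit ball of `X`. -/
def LOrthogonal {X : Type} [NormedAddCommGroup X] [NormedSpace ℝ X] (x : ℕ → X) : Prop :=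
  (∀ n, ‖x n‖ ≤ 1) ∧ ∀ y : X, Tendsto (fun n => ‖y + x n‖) atTop (𝓝 (1 + ‖y‖))

/-- The dual of a real normed space. -/
def Dual (X : Type) [NormedAddCommGroup X] [NormedSpace ℝ X] : Type := StrongDual ℝ X

noncomputable instance (X : Type) [NormedAddCommGroup X] [NormedSpace ℝ X] :
    NormedAddCommGroup (Dual X) :=
  (inferInstance : NormedAddCommGroup (StrongDual ℝ X))

noncomputable instance (X : Type) [NormedAddCommGroup X] [NormedSpace ℝ X] :
    NormedSpace ℝ (Dual X) :=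
  (inferInstance : NormedSpace ℝ (StrongDual ℝ X))

/-- The value of a functional at a vector. -/
def Dual.app {X : Type} [NormedAddCommGroup X] [NormedSpace ℝ X] (f : Dual X) (x : X) : ℝ :=
  (show StrongDual ℝ X from f) x

/-- The space `ℓ_∞`. -/
def Linf : Type := lp (fun _ : ℕ => ℝ) ∞

noncomputable instance : NormedAddCommGroup Linf :=
  (inferInstance : NormedAddCommGroup (lp (fun _ : ℕ => ℝ) ∞))

noncomputable instance : NormedSpace ℝ Linf :=
  (inferInstance : NormedSpace ℝ (lp (fun _ : ℕ => ℝ) ∞))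

/-- The `n`-th term of an element of `ℓ_∞`. -/
def Linf.coord (h : Linf) (n : ℕ) : ℝ := (show lp (fun _ : ℕ => ℝ) ∞ from h) n

/-- In the bidual, `w = y + z`, where `y ∈ X` is identified with its canonical image. -/
def IsSum {X : Type} [NormedAddCommGroup X] [NormedSpace ℝ X] (y : X) (z w : Dual (Dual X)) :
    Prop := ∀ f : Dual X, w.app f = f.app y + z.app f

/-- The indicator function of `A` in `ℓ_∞`. -/
noncomputable def ind (A : Set ℕ) : lp (fun _ : ℕ => ℝ) ∞ :=
  ⟨A.indicator fun _ => 1, memℓp_infty ⟨1, by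
    rintro _ ⟨n, rfl⟩
    by_cases h : n ∈ A
    · simp [h]
    · simp [h]⟩⟩

/-- The functional `I` on `ℓ_∞` that is identified with the measure `μ`: `I(1_A) = μ(A)` for each
`A ⊆ ω`. -/
def Represents (I : Dual Linf) (μ : Set ℕ → ℝ) : Prop :=
  ∀ A : Set ℕ, ∀ h : Linf, (∀ n, (n ∈ A → h.coord n = 1) ∧ (n ∉ A → h.coord n = 0)) →
    I.app h = μ A

/-- `z` is the `μ`-limit `T**(μ)` of the sequence `x`: `z(f) = I((f(x_n))_n)` for each `f ∈ X*`,
where `I` is the functional on `ℓ_∞` identified with `μ`. -/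
def IsMuLim {X : Type} [NormedAddCommGroup X] [NormedSpace ℝ X] (μ : Set ℕ → ℝ) (x : ℕ → X)
    (z : Dual (Dual X)) : Prop :=
  ∃ I : Dual Linf, Represents I μ ∧
    ∀ (f : Dual X) (h : Linf), (∀ n, h.coord n = f.app (x n)) → z.app f = I.app h

/-- The inequality of the question. -/
def Inequality (ε : ℝ) (μ : Set ℕ → ℝ) : Prop :=
  ∀ (X : Type) [NormedAddCommGroup X] [NormedSpace ℝ X] [CompleteSpace X] (x : ℕ → X),
    LOrthogonal x → ∀ z : Dual (Dual X), IsMuLim μ x z →
      ∀ (y : X) (w : Dual (Dual X)), IsSum y z w → ‖y‖ + ε * ‖z‖ ≤ ‖w‖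

/-- For the `μ`-limit `z` of the sequence `x` there is a vector `y` with `0 < ‖y‖ ≤ ‖z‖` and
`‖y + z‖ ≤ ‖y‖`. -/
def FailsBadly {X : Type} [NormedAddCommGroup X] [NormedSpace ℝ X] (μ : Set ℕ → ℝ)
    (x : ℕ → X) : Prop :=
  ∃ z : Dual (Dual X), IsMuLim μ x z ∧ ∃ (y : X) (w : Dual (Dual X)), IsSum y z w ∧
    0 < ‖y‖ ∧ ‖y‖ ≤ ‖z‖ ∧ ‖w‖ ≤ ‖y‖

/-! ### Integration with respect to a finitely additive measure -/

theorem norm_apply_le (h : lp (fun _ : ℕ => ℝ) ∞) (n : ℕ) : |h n| ≤ ‖h‖ :=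
  lp.norm_apply_le_norm ENNReal.top_ne_zero h n

theorem ind_apply (A : Set ℕ) (n : ℕ) : ind A n = A.indicator (fun _ => (1 : ℝ)) n := rfl

/-- Finite additivity over the fibres of a map to a finite type. -/
theorem sum_fibres {μ : Set ℕ → ℝ} (hμ : IsMeasure μ) {ι : Type} [Fintype ι] [DecidableEq ι]
    (c : ℕ → ι) (S : Finset ι) : ∑ q ∈ S, μ (c ⁻¹' {q}) = μ (c ⁻¹' (S : Set ι)) := by
  induction S using Finset.induction_on with
  | empty => simp [hμ.finite ∅ Set.finite_empty]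
  | insert a S ha ih =>
    rw [Finset.sum_insert ha, ih, ← hμ.add]
    · congr 1
      ext n
      simp
    · rw [Set.disjoint_left]
      intro n hn hn'
      simp only [Set.mem_preimage, Set.mem_singleton_iff, Finset.mem_coe] at hn hn'
      exact ha (hn ▸ hn')

/-- The pattern of `n` with respect to finitely many sets. -/
noncomputable def pat (s : Finset (Set ℕ)) (n : ℕ) : s → Bool := by
  classical
  exact fun A => decide (n ∈ (A : Set ℕ))

/-- A point with the given pattern. -/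
noncomputable def pt (s : Finset (Set ℕ)) (q : s → Bool) : ℕ := by
  classical
  exact if h : ∃ n, pat s n = q then h.choose else 0

theorem pt_spec (s : Finset (Set ℕ)) (n : ℕ) : pat s (pt s (pat s n)) = pat s n := by
  unfold pt
  rw [dif_pos ⟨n, rfl⟩]
  exact (⟨n, rfl⟩ : ∃ m, pat s m = pat s n).choose_spec

theorem pat_eq {s : Finset (Set ℕ)} {m n : ℕ} (h : pat s m = pat s n) {A : Set ℕ} (hA : A ∈ s) :
    m ∈ A ↔ n ∈ A := by
  have := congrFun h ⟨A, hA⟩
  simpa [pat] using this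

/-- The Riemann sum functional of a finite partition. -/
noncomputable def riemann (μ : Set ℕ → ℝ) (s : Finset (Set ℕ))
    (h : lp (fun _ : ℕ => ℝ) ∞) : ℝ := by
  classical
  exact ∑ q : s → Bool, μ (pat s ⁻¹' {q}) * h (pt s q)

theorem riemann_bound {μ : Set ℕ → ℝ} (hμ : IsMeasure μ) (s : Finset (Set ℕ))
    (h : lp (fun _ : ℕ => ℝ) ∞) : |riemann μ s h| ≤ μ Set.univ * ‖h‖ := by
  classical
  unfold riemann
  refine (Finset.abs_sum_le_sum_abs _ _).trans ?_
  have h1 : ∑ q : s → Bool, μ (pat s ⁻¹' {q}) = μ Set.univ := by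
    rw [sum_fibres hμ]
    simp
  rw [← h1, Finset.sum_mul]
  refine Finset.sum_le_sum fun q _ => ?_
  rw [abs_mul, abs_of_nonneg (hμ.nonneg _)]
  exact mul_le_mul_of_nonneg_left (norm_apply_le h _) (hμ.nonneg _)

theorem riemann_ind {μ : Set ℕ → ℝ} (hμ : IsMeasure μ) {s : Finset (Set ℕ)} {A : Set ℕ}
    (hA : A ∈ s) : riemann μ s (ind A) = μ A := by
  classical
  unfold riemann
  have h1 : ∀ q : s → Bool, μ (pat s ⁻¹' {q}) * ind A (pt s q) =
      if pt s q ∈ A then μ (pat s ⁻¹' {q}) else 0 := by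
    intro q
    rw [ind_apply]
    by_cases h : pt s q ∈ A
    · simp [h]
    · simp [h]
  rw [Finset.sum_congr rfl fun q _ => h1 q, ← Finset.sum_filter, sum_fibres hμ]
  have h2 : pat s ⁻¹' ((Finset.univ.filter fun q : s → Bool => pt s q ∈ A : Finset _) :
      Set (s → Bool)) = A := by
    ext n
    simp only [Set.mem_preimage, Finset.coe_filter, Finset.mem_univ, true_and, Set.mem_ofPred_eq]
    exact pat_eq (pt_spec s n) hA
  rw [h2]

theorem exists_integral {μ : Set ℕ → ℝ} (hμ : IsMeasure μ) :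
    ∃ I : StrongDual ℝ (lp (fun _ : ℕ => ℝ) ∞), (∀ A, I (ind A) = μ A) ∧
      ∀ h, |I h| ≤ μ Set.univ * ‖h‖ := by
  classical
  -- limit along an ultrafilter finer than `atTop`
  let U : Ultrafilter (Finset (Set ℕ)) := Ultrafilter.of atTop
  have hU : (U : Filter (Finset (Set ℕ))) ≤ atTop := Ultrafilter.of_le _
  have hlim : ∀ h : lp (fun _ : ℕ => ℝ) ∞, ∃ l : ℝ, Tendsto (fun s => riemann μ s h) U (𝓝 l) := by
    intro h
    have h1 : IsCompact (Set.Icc (-(μ Set.univ * ‖h‖)) (μ Set.univ * ‖h‖)) := isCompact_Icc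
    obtain ⟨l, -, hl⟩ := h1.ultrafilter_le_nhds (U.map fun s => riemann μ s h) (by
      rw [le_principal_iff, Ultrafilter.mem_coe, Ultrafilter.mem_map]
      exact Filter.univ_mem' fun s => abs_le.1 (riemann_bound hμ s h))
    exact ⟨l, hl⟩
  choose I hI using hlim
  have hadd : ∀ h k, I (h + k) = I h + I k := by
    intro h k
    refine tendsto_nhds_unique (hI (h + k)) (((hI h).add (hI k)).congr fun s => ?_)
    simp only [riemann, lp.coeFn_add, Pi.add_apply, mul_add, Finset.sum_add_distrib]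
  have hsmul : ∀ (c : ℝ) h, I (c • h) = c * I h := by
    intro c h
    refine tendsto_nhds_unique (hI (c • h)) (((hI h).const_mul c).congr fun s => ?_)
    simp only [riemann, lp.coeFn_smul, Pi.smul_apply, smul_eq_mul, Finset.mul_sum]
    exact Finset.sum_congr rfl fun q _ => by ring
  have hbd : ∀ h, |I h| ≤ μ Set.univ * ‖h‖ := fun h =>
    le_of_tendsto (hI h).abs (Eventually.of_forall fun s => riemann_bound hμ s h)
  refine ⟨LinearMap.mkContinuous
    { toFun := I
      map_add' := hadd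
      map_smul' := hsmul } (μ Set.univ) hbd, fun A => ?_, hbd⟩
  refine tendsto_nhds_unique (hI (ind A)) ?_
  refine tendsto_const_nhds.congr' ?_
  have : ∀ᶠ s : Finset (Set ℕ) in U, {A} ⊆ s := hU (eventually_ge_atTop _)
  filter_upwards [this] with s hs
  exact (riemann_ind hμ (hs (Finset.mem_singleton_self A))).symm

/-! ### The counterexample -/

/-- The space `ℓ_1`. -/
abbrev L : Type := lp (fun _ : ℕ => ℝ) 1

theorem summable_norm (x : L) : Summable fun n => ‖x n‖ := by
  simpa using (lp.memℓp x).summable (by simp)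

theorem norm_L (x : L) : ‖x‖ = ∑' n, ‖x n‖ := by
  rw [lp.norm_eq_tsum_rpow (by simp)]
  simp

/-- The unit vectors of `ℓ_1`. -/
noncomputable def e (k : ℕ) : L := lp.single 1 k 1

theorem norm_e (k : ℕ) : ‖e k‖ = 1 := by
  rw [e, lp.norm_single one_pos, norm_one]

theorem norm_agree {x y : L} {k : ℕ} (h : ∀ n, n ≠ k → x n = y n) :
    ‖x‖ - ‖x k‖ = ‖y‖ - ‖y k‖ := by
  rw [norm_L, norm_L, (summable_norm x).tsum_eq_add_tsum_ite k,
    (summable_norm y).tsum_eq_add_tsum_ite k, add_sub_cancel_left, add_sub_cancel_left]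
  refine tsum_congr fun n => ?_
  split_ifs with hn
  · rfl
  · rw [h n hn]

/-- `‖a ± e_k‖ → 1 + ‖a‖` in `ℓ_1`. -/
theorem tendsto_norm_add (a : L) (σ : ℕ → ℝ) (hσ : ∀ k, |σ k| = 1) :
    Tendsto (fun k => ‖a + σ k • e k‖) atTop (𝓝 (1 + ‖a‖)) := by
  have h0 : Tendsto (fun k => ‖a k‖) atTop (𝓝 0) := (summable_norm a).tendsto_atTop_zero
  have hlow : ∀ k, 1 + ‖a‖ - 2 * ‖a k‖ ≤ ‖a + σ k • e k‖ := by
    intro k
    -- subtract the `k`-th coordinate of `a`
    have e1 : (a - lp.single 1 k (a k) : L) k = 0 := by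
      rw [lp.coeFn_sub, Pi.sub_apply, lp.single_apply_self, sub_self]
    have e2 : (a - lp.single 1 k (a k) + σ k • e k : L) k = σ k := by
      rw [lp.coeFn_add, Pi.add_apply, e1, lp.coeFn_smul, Pi.smul_apply, e,
        lp.single_apply_self, zero_add, smul_eq_mul, mul_one]
    have h1 := norm_agree (x := a - lp.single 1 k (a k)) (y := a) (k := k) (fun n hn => by
      rw [lp.coeFn_sub, Pi.sub_apply, lp.single_apply_ne _ _ _ hn, sub_zero])
    have h2 := norm_agree (x := a - lp.single 1 k (a k) + σ k • e k)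
      (y := a - lp.single 1 k (a k)) (k := k) (fun n hn => by
      rw [lp.coeFn_add, Pi.add_apply, lp.coeFn_smul, Pi.smul_apply, e,
        lp.single_apply_ne _ _ _ hn, smul_zero, add_zero])
    rw [e1, norm_zero, sub_zero] at h1 h2
    rw [e2, Real.norm_eq_abs, hσ] at h2
    have h3 : ‖a - lp.single 1 k (a k) + σ k • e k‖ ≤ ‖a + σ k • e k‖ + ‖a k‖ := by
      have : a - lp.single 1 k (a k) + σ k • e k = (a + σ k • e k) - lp.single 1 k (a k) := by
        abel
      rw [this]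
      refine (norm_sub_le _ _).trans ?_
      rw [lp.norm_single one_pos]
    linarith
  have hup : ∀ k, ‖a + σ k • e k‖ ≤ 1 + ‖a‖ := by
    intro k
    refine (norm_add_le _ _).trans ?_
    rw [norm_smul, norm_e, Real.norm_eq_abs, hσ, mul_one, add_comm]
  refine tendsto_of_tendsto_of_tendsto_of_le_of_le (g := fun k => 1 + ‖a‖ - 2 * ‖a k‖)
    (h := fun _ => 1 + ‖a‖) ?_ tendsto_const_nhds hlow hup
  simpa using (tendsto_const_nhds (x := 1 + ‖a‖)).sub (h0.const_mul 2)

/-- The sign of the second component. -/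
noncomputable def sgn (n : ℕ) : ℝ := if n % 2 = 0 then 1 else -1

theorem abs_sgn (n : ℕ) : |sgn n| = 1 := by
  unfold sgn
  split_ifs <;> simp

/-- The sequence `(e_k, e_k), (e_k, -e_k)`, `k = 0, 1, …`. -/
noncomputable def xs (n : ℕ) : L × L := (e (n / 2), sgn n • e (n / 2))

theorem xs_even (k : ℕ) : xs (2 * k) = (e k, e k) := by
  have h1 : 2 * k / 2 = k := by omega
  have h2 : 2 * k % 2 = 0 := by omega
  simp [xs, sgn, h1, h2]

theorem xs_odd (k : ℕ) : xs (2 * k + 1) = (e k, -e k) := by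
  have h1 : (2 * k + 1) / 2 = k := by omega
  have h2 : (2 * k + 1) % 2 = 1 := by omega
  simp [xs, sgn, h1, h2]

theorem lOrthogonal_xs : LOrthogonal xs := by
  constructor
  · intro n
    rw [xs, Prod.norm_def, norm_smul, norm_e, Real.norm_eq_abs, abs_sgn, mul_one, max_self]
  · intro y
    have hdiv : Tendsto (fun n : ℕ => n / 2) atTop atTop :=
      Nat.tendsto_div_const_atTop two_ne_zero
    have h1 : Tendsto (fun n => ‖y.1 + e (n / 2)‖) atTop (𝓝 (1 + ‖y.1‖)) := by
      have := (tendsto_norm_add y.1 (fun _ => 1) (fun _ => by simp)).comp hdiv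
      refine this.congr fun n => ?_
      simp
    have h2 : Tendsto (fun n => ‖y.2 + sgn n • e (n / 2)‖) atTop (𝓝 (1 + ‖y.2‖)) := by
      have h3 := (tendsto_norm_add y.2 (fun _ => 1) (fun _ => by simp)).comp hdiv
      have h4 := (tendsto_norm_add y.2 (fun _ => -1) (fun _ => by simp)).comp hdiv
      rw [Metric.tendsto_atTop] at h3 h4 ⊢
      intro ε hε
      obtain ⟨N₁, hN₁⟩ := h3 ε hε
      obtain ⟨N₂, hN₂⟩ := h4 ε hε
      refine ⟨max N₁ N₂, fun n hn => ?_⟩
      have a1 := hN₁ n ((le_max_left _ _).trans hn)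
      have a2 := hN₂ n ((le_max_right _ _).trans hn)
      simp only [Function.comp] at a1 a2
      unfold sgn
      split_ifs
      · exact a1
      · exact a2
    have h3 : ∀ n, ‖y + xs n‖ = max ‖y.1 + e (n / 2)‖ ‖y.2 + sgn n • e (n / 2)‖ := fun n => rfl
    simp only [h3]
    have h4 : 1 + ‖y‖ = max (1 + ‖y.1‖) (1 + ‖y.2‖) := by
      rw [Prod.norm_def, max_add_add_left]
    rw [h4]
    exact h1.max h2

/-- The measure `ν(A) = (μ{k : 2k ∈ A} + μ{k : 2k+1 ∈ A}) / 2`. -/
noncomputable def split (μ : Set ℕ → ℝ) (A : Set ℕ) : ℝ :=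
  (μ {k | 2 * k ∈ A} + μ {k | 2 * k + 1 ∈ A}) / 2

theorem split_strongQ {ε : ℝ} {μ : Set ℕ → ℝ} (hμ : StrongQ ε μ) : StrongQ (ε / 2) (split μ) := by
  obtain ⟨hm, hq⟩ := hμ
  refine ⟨⟨fun A => ?_, fun A => ?_, fun A B hAB => ?_, fun A hA => ?_⟩,
    fun P hfin hdis huniv => ?_⟩
  · have h1 := hm.nonneg {k | 2 * k ∈ A}
    have h2 := hm.nonneg {k | 2 * k + 1 ∈ A}
    unfold split
    linarith
  · have h1 := hm.le_one {k | 2 * k ∈ A}
    have h2 := hm.le_one {k | 2 * k + 1 ∈ A}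
    unfold split
    linarith
  · have h1 : {k | 2 * k ∈ A ∪ B} = {k | 2 * k ∈ A} ∪ {k | 2 * k ∈ B} := rfl
    have h2 : {k | 2 * k + 1 ∈ A ∪ B} = {k | 2 * k + 1 ∈ A} ∪ {k | 2 * k + 1 ∈ B} := rfl
    unfold split
    rw [h1, h2, hm.add, hm.add]
    · ring
    · exact Set.disjoint_left.2 fun k hk hk' => Set.disjoint_left.1 hAB hk hk'
    · exact Set.disjoint_left.2 fun k hk hk' => Set.disjoint_left.1 hAB hk hk'
  · have h1 : μ {k | 2 * k ∈ A} = 0 :=
      hm.finite _ (hA.preimage (f := fun k => 2 * k) (fun a _ b _ h => by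
        simp only at h
        omega))
    have h2 : μ {k | 2 * k + 1 ∈ A} = 0 :=
      hm.finite _ (hA.preimage (f := fun k => 2 * k + 1) (fun a _ b _ h => by
        simp only at h
        omega))
    unfold split
    rw [h1, h2]
    norm_num
  · obtain ⟨A, hA, hεA⟩ := hq (fun n => {k | 2 * k ∈ P n})
      (fun n => (hfin n).preimage (f := fun k => 2 * k) (fun a _ b _ h => by
        simp only at h
        omega))
      (fun m n hmn => Set.disjoint_left.2 fun k hk hk' =>
        Set.disjoint_left.1 (hdis m n hmn) hk hk') (by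
        refine Set.eq_univ_of_forall fun k => ?_
        have : 2 * k ∈ ⋃ n, P n := by
          rw [huniv]
          exact Set.mem_univ _
        obtain ⟨n, hn⟩ := Set.mem_iUnion.1 this
        exact Set.mem_iUnion.2 ⟨n, hn⟩)
    refine ⟨(fun k => 2 * k) '' A, fun n => ?_, ?_⟩
    · rintro _ ⟨⟨a, ha, rfl⟩, ha'⟩ _ ⟨⟨b, hb, rfl⟩, hb'⟩
      have : a = b := hA n ⟨ha, ha'⟩ ⟨hb, hb'⟩
      rw [this]
    · have h1 : {k | 2 * k ∈ (fun k => 2 * k) '' A} = A := by
        ext k
        constructor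
        · rintro ⟨a, ha, hak⟩
          simp only at hak
          have : a = k := by omega
          rwa [← this]
        · exact fun hk => ⟨k, hk, rfl⟩
      have h2 := hm.nonneg {k | 2 * k + 1 ∈ (fun k => 2 * k) '' A}
      unfold split
      rw [h1]
      linarith

/-- Composition with `r : ω → ω` on `ℓ_∞`. -/
noncomputable def comp (r : ℕ → ℕ) : lp (fun _ : ℕ => ℝ) ∞ →L[ℝ] lp (fun _ : ℕ => ℝ) ∞ :=
  LinearMap.mkContinuous
    { toFun := fun h => ⟨fun n => h (r n), memℓp_infty ⟨‖h‖, by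
        rintro _ ⟨n, rfl⟩
        exact norm_apply_le h (r n)⟩⟩
      map_add' := fun h k => by
        ext n
        rfl
      map_smul' := fun c h => by
        ext n
        rfl } 1 (by
    intro h
    rw [one_mul]
    exact lp.norm_le_of_forall_le (norm_nonneg _) fun n => norm_apply_le h (r n))

theorem comp_apply (r : ℕ → ℕ) (h : lp (fun _ : ℕ => ℝ) ∞) (n : ℕ) : comp r h n = h (r n) := rfl

/-- The bounded sequence `(f(x_n))_n`. -/
noncomputable def evalSeq {X : Type} [NormedAddCommGroup X] [NormedSpace ℝ X] (x : ℕ → X)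
    (hx : ∀ n, ‖x n‖ ≤ 1) : StrongDual ℝ X →L[ℝ] lp (fun _ : ℕ => ℝ) ∞ :=
  LinearMap.mkContinuous
    { toFun := fun f => ⟨fun n => f (x n), memℓp_infty ⟨‖f‖, by
        rintro _ ⟨n, rfl⟩
        exact (f.le_opNorm _).trans (mul_le_of_le_one_right (norm_nonneg _) (hx n))⟩⟩
      map_add' := fun h k => by
        ext n
        rfl
      map_smul' := fun c h => by
        ext n
        rfl } 1 (by
    intro f
    rw [one_mul]
    exact lp.norm_le_of_forall_le (norm_nonneg _) fun n =>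
      (f.le_opNorm _).trans (mul_le_of_le_one_right (norm_nonneg _) (hx n)))

theorem evalSeq_apply {X : Type} [NormedAddCommGroup X] [NormedSpace ℝ X] (x : ℕ → X)
    (hx : ∀ n, ‖x n‖ ≤ 1) (f : StrongDual ℝ X) (n : ℕ) : evalSeq x hx f n = f (x n) := rfl

/-- The main construction. -/
theorem counterexample {ε : ℝ} (hε : 0 < ε) {μ : Set ℕ → ℝ} (hμ : StrongQ ε μ) :
    StrongQ (ε / 2) (split μ) ∧ ∃ z : StrongDual ℝ (StrongDual ℝ (L × L)),
      (∃ I : StrongDual ℝ (lp (fun _ : ℕ => ℝ) ∞), (∀ A, I (ind A) = split μ A) ∧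
        ∀ (f : StrongDual ℝ (L × L)) (h : lp (fun _ : ℕ => ℝ) ∞),
          (∀ n, h n = f (xs n)) → z f = I h) ∧ ∃ y : L × L, 0 < ‖y‖ ∧ ‖y‖ ≤ ‖z‖ ∧
        ‖NormedSpace.inclusionInDoubleDual ℝ (L × L) y + z‖ ≤ ‖y‖ := by
  refine ⟨split_strongQ hμ, ?_⟩
  obtain ⟨hm, hq⟩ := hμ
  obtain ⟨I, hI, hIb⟩ := exists_integral hm
  set m := μ Set.univ with hmdef
  have hmpos : 0 < m := by
    obtain ⟨A, -, hA⟩ := hq (fun n => {n}) (fun n => Set.finite_singleton n)
      (fun a b hab => by simpa using hab) (by ext n; simp)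
    have h1 : μ Set.univ = μ A + μ Aᶜ := by
      rw [← hm.add A Aᶜ disjoint_compl_right, Set.union_compl_self]
    have h2 := hm.nonneg Aᶜ
    linarith
  let Iν : StrongDual ℝ (lp (fun _ : ℕ => ℝ) ∞) :=
    (2⁻¹ : ℝ) • (I.comp (comp fun k => 2 * k) + I.comp (comp fun k => 2 * k + 1))
  let z : StrongDual ℝ (StrongDual ℝ (L × L)) := Iν.comp (evalSeq xs lOrthogonal_xs.1)
  have hzI : ∀ f : StrongDual ℝ (L × L), ∃ h : lp (fun _ : ℕ => ℝ) ∞,
      (∀ k, h k = f (e k, 0)) ∧ z f = I h := by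
    intro f
    let g := evalSeq xs lOrthogonal_xs.1 f
    refine ⟨(2⁻¹ : ℝ) • (comp (fun k => 2 * k) g + comp (fun k => 2 * k + 1) g), fun k => ?_, ?_⟩
    · change 2⁻¹ * (f (xs (2 * k)) + f (xs (2 * k + 1))) = f (e k, 0)
      rw [xs_even, xs_odd, ← map_add]
      have : ((e k, e k) + (e k, -e k) : L × L) = (2 : ℝ) • (e k, 0) := by
        refine Prod.ext ?_ ?_
        · simp [two_smul]
        · simp
      rw [this, map_smul, smul_eq_mul]
      ring
    · change 2⁻¹ * (I (comp (fun k => 2 * k) g) + I (comp (fun k => 2 * k + 1) g)) = _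
      rw [map_smul, map_add, smul_eq_mul]
  refine ⟨z, ⟨Iν, fun A => ?_, fun f h hh => ?_⟩, (0, m • e 0), ?_, ?_, ?_⟩
  · change 2⁻¹ * (I (comp (fun k => 2 * k) (ind A)) + I (comp (fun k => 2 * k + 1) (ind A))) = _
    have h1 : comp (fun k => 2 * k) (ind A) = ind {k | 2 * k ∈ A} := by
      ext k
      rfl
    have h2 : comp (fun k => 2 * k + 1) (ind A) = ind {k | 2 * k + 1 ∈ A} := by
      ext k
      rfl
    rw [h1, h2, hI, hI, split]
    ring
  · have : h = evalSeq xs lOrthogonal_xs.1 f := by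
      ext n
      exact hh n
    rw [this]
    rfl
  · rw [Prod.norm_def, norm_zero, norm_smul, norm_e, mul_one, Real.norm_of_nonneg hmpos.le]
    exact lt_max_of_lt_right hmpos
  · -- the lower bound for `‖z‖`
    rw [Prod.norm_def, norm_zero, norm_smul, norm_e, mul_one, Real.norm_of_nonneg hmpos.le,
      max_eq_right hmpos.le]
    let s : StrongDual ℝ L := LinearMap.mkContinuous
      { toFun := fun a => ∑' n, a n
        map_add' := fun a b => by
          exact ((summable_norm a).of_norm).tsum_add ((summable_norm b).of_norm)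
        map_smul' := fun c a => by
          exact tsum_mul_left } 1 (by
      intro a
      rw [one_mul, norm_L]
      exact norm_tsum_le_tsum_norm (summable_norm a))
    let f : StrongDual ℝ (L × L) := s.comp (ContinuousLinearMap.fst ℝ L L)
    have hf : ‖f‖ ≤ 1 := by
      refine ContinuousLinearMap.opNorm_le_bound _ zero_le_one fun p => ?_
      have h1 : ‖s p.1‖ ≤ 1 * ‖p.1‖ := s.le_of_opNorm_le (LinearMap.mkContinuous_norm_le _
        zero_le_one _) p.1
      exact h1.trans (mul_le_mul_of_nonneg_left (norm_fst_le p) zero_le_one)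
    obtain ⟨h, hh, hz⟩ := hzI f
    have hh1 : h = ind Set.univ := by
      ext k
      rw [hh, ind_apply]
      change ∑' n, e k n = _
      rw [tsum_eq_single k]
      · simp [e]
      · intro n hn
        exact lp.single_apply_ne _ _ _ hn
    rw [hh1, hI] at hz
    have h2 := z.le_opNorm f
    rw [hz, Real.norm_of_nonneg hmpos.le] at h2
    exact h2.trans (mul_le_of_le_one_right (norm_nonneg _) hf)
  · -- the upper bound for `‖y + z‖`
    rw [Prod.norm_def, norm_zero, norm_smul, norm_e, mul_one, Real.norm_of_nonneg hmpos.le,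
      max_eq_right hmpos.le]
    refine ContinuousLinearMap.opNorm_le_bound _ hmpos.le fun f => ?_
    obtain ⟨h, hh, hz⟩ := hzI f
    have h1 : (NormedSpace.inclusionInDoubleDual ℝ (L × L) (0, m • e 0) + z) f =
        m * f (0, e 0) + I h := by
      rw [add_apply, NormedSpace.dual_def, hz]
      have : ((0, m • e 0) : L × L) = m • (0, e 0) := by
        rw [Prod.smul_mk, smul_zero]
      rw [this, map_smul, smul_eq_mul]
    rw [h1]
    have h2 : ∀ k, |h k| ≤ ‖f‖ - |f (0, e 0)| := by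
      intro k
      rw [hh]
      obtain ⟨a, ha, ha'⟩ : ∃ a : ℝ, |a| = 1 ∧ |f (e k, 0)| = a * f (e k, 0) := by
        rcases abs_choice (f (e k, 0)) with h | h
        · exact ⟨1, by simp, by rw [h, one_mul]⟩
        · exact ⟨-1, by simp, by rw [h, neg_one_mul]⟩
      obtain ⟨b, hb, hb'⟩ : ∃ b : ℝ, |b| = 1 ∧ |f (0, e 0)| = b * f (0, e 0) := by
        rcases abs_choice (f (0, e 0)) with h | h
        · exact ⟨1, by simp, by rw [h, one_mul]⟩
        · exact ⟨-1, by simp, by rw [h, neg_one_mul]⟩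
      have h3 : |f (e k, 0)| + |f (0, e 0)| = f (a • e k, b • e 0) := by
        have : ((a • e k, b • e 0) : L × L) = a • (e k, 0) + b • (0, e 0) := by
          simp
        rw [this, map_add, map_smul, map_smul, ha', hb']
        rfl
      have h4 : f (a • e k, b • e 0) ≤ ‖f‖ := by
        refine (le_abs_self _).trans ((f.le_opNorm _).trans ?_)
        refine mul_le_of_le_one_right (norm_nonneg _) ?_
        rw [Prod.norm_def, norm_smul, norm_smul, norm_e, norm_e, Real.norm_eq_abs,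
          Real.norm_eq_abs, ha, hb]
        simp
      linarith
    have h3 : 0 ≤ ‖f‖ - |f (0, e 0)| := (abs_nonneg _).trans (h2 0)
    have h4 : ‖h‖ ≤ ‖f‖ - |f (0, e 0)| := lp.norm_le_of_forall_le h3 h2
    have h5 := (hIb h).trans (mul_le_mul_of_nonneg_left h4 hmpos.le)
    rw [Real.norm_eq_abs]
    refine (abs_add_le _ _).trans ?_
    rw [abs_mul, abs_of_pos hmpos]
    calc m * |f (0, e 0)| + |I h| ≤ m * |f (0, e 0)| + m * (‖f‖ - |f (0, e 0)|) := by linarith
      _ = m * ‖f‖ := by ring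

theorem failsBadly {ε : ℝ} (hε : 0 < ε) {μ : Set ℕ → ℝ} (hμ : StrongQ ε μ) :
    FailsBadly (split μ) xs := by
  obtain ⟨-, z, ⟨I, hI, hz⟩, y, hy, hyz, hle⟩ := counterexample hε hμ
  refine ⟨z, ⟨I, fun A h hA => ?_, hz⟩, y,
    NormedSpace.inclusionInDoubleDual ℝ (L × L) y + z, fun f => rfl, hy, hyz, hle⟩
  have : (show lp (fun _ : ℕ => ℝ) ∞ from h) = ind A := by
    ext n
    rw [ind_apply]
    by_cases hn : n ∈ A
    · rw [Set.indicator_of_mem hn]
      exact (hA n).1 hn
    · rw [Set.indicator_of_notMem hn]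
      exact (hA n).2 hn
  rw [← hI A, ← this]
  rfl

/-- The assertion of the question. -/
def QuestionOne : Prop :=
  ∀ ε : ℝ, 0 < ε → ∀ μ : Set ℕ → ℝ, StrongQ ε μ → Inequality ε μ

/-- The inequality of the question, for all `ε` and all `ε`-strong `Q`-measures, holds if and only
if there is no `ε`-strong `Q`-measure at all. Moreover each `ε`-strong `Q`-measure `μ` gives an
`ε/2`-strong `Q`-measure `split μ` and an `L`-orthogonal sequence in `ℓ_1 ⊕_∞ ℓ_1` for which
`‖y + z‖ ≤ ‖y‖` for some `y` with `0 < ‖y‖ ≤ ‖z‖`. -/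
theorem result :
    (QuestionOne ↔ ¬ ∃ ε : ℝ, 0 < ε ∧ ∃ μ : Set ℕ → ℝ, StrongQ ε μ) ∧
    ∀ ε : ℝ, 0 < ε → ∀ μ : Set ℕ → ℝ, StrongQ ε μ →
      StrongQ (ε / 2) (split μ) ∧ LOrthogonal xs ∧ FailsBadly (split μ) xs := by
  refine ⟨⟨?_, ?_⟩, fun ε hε μ hμ => ?_⟩
  · rintro h ⟨ε, hε, μ, hμ⟩
    obtain ⟨z, hz, y, w, hw, hy, hyz, hle⟩ := failsBadly hε hμ
    have h2 := h (ε / 2) (half_pos hε) (split μ) (split_strongQ hμ) (L × L) xs lOrthogonal_xs z
      hz y w hw
    have h3 : 0 < ε / 2 * ‖z‖ := mul_pos (half_pos hε) (hy.trans_le hyz)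
    linarith
  · intro h ε hε μ hμ
    exact absurd ⟨ε, hε, μ, hμ⟩ h
  · exact ⟨split_strongQ hμ, lOrthogonal_xs, failsBadly hε hμ⟩

end Pool.Agent.Results.MP_8a0948_an.FailsForEveryQMeasure
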